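import Pool.Agent.Run7.h806.TV.Asy

/-!
# Diameters of `SL_n(k)`, `n` unbounded, for generating sets with small elements

Let `k` be a finite field, `n = m + 1 ≥ 2`, and let `S` be a generating set of `G = SL_n(k)`.

1. For every `k` and `r` there is a constant `C` such that for all `n` the following holds.  If `S`
   contains an element `x`, not a scalar matrix, with `rank (x - c) ≤ r` for some `c` in `k`, every
   element of `G` is a word of length at most `n ^ C` in `S`; and `n ^ C ≤ (log |G|) ^ C` if `n ≥ 3` or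
   `|k| ≥ 4`.
2. Let `e ≠ 0` be a vector, `φ ≠ 0` a linear form with `φ e = 0`, and `X` the root subgroup of the
   transvections `1 + c e φ`, `c ∈ k`.  Let `|k| = p ^ a`, `p` prime.  If the elements of `X` in `S`
   generate `X`, every element of `G` is a word of length at most
   `12 n^3 (12 a ⌊p/2⌋ + 4 n^3 + 8 n^2 + 2)` in `S`; for `p ≤ 3` this is at most `(log |G|) ^ 11`.
3. If `S` is invariant under conjugation by `X`, and `n ≥ 3` or `|k| ≥ 4`, every element of `G` is a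
   word of length at most `585 n ^ 6` in `S`; this is at most `(log |G|) ^ 11`.
-/

set_option autoImplicit false

namespace Pool.Agent.Results.MP_bed792_al.SpecialLinear

open Matrix

/-- the group `SL_n(F)`, `n = m + 1` -/
abbrev G (m : ℕ) (F : Type) [Field F] := Matrix.SpecialLinearGroup (Fin (m + 1)) F

/-- `g` is a product of at most `k` elements of `S` and inverses of elements of `S` -/
def IsWord {m : ℕ} {F : Type} [Field F] (S : Set (G m F)) (k : ℕ) (g : G m F) : Prop :=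
  ∃ l : List (G m F), l.length ≤ k ∧ (∀ x ∈ l, x ∈ S ∨ x⁻¹ ∈ S) ∧ l.prod = g

theorem log_le (m : ℕ) (F : Type) [Field F] [Finite F] :
    Real.log (Nat.card (Pool.Agent.R167.HG.PSL m F)) ≤ Real.log (Nat.card (G m F)) := by
  classical
  have hfs : Finite (G m F) := Finite.of_injective (fun g : G m F => g.1) Subtype.val_injective
  have h2 : Nat.card (Pool.Agent.R167.HG.PSL m F) ≤ Nat.card (G m F) :=
    Nat.card_le_card_of_surjective
      (QuotientGroup.mk : G m F → Pool.Agent.R167.HG.PSL m F) QuotientGroup.mk_surjective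
  have h3 : 0 < Nat.card (Pool.Agent.R167.HG.PSL m F) := by
    have : Finite (Pool.Agent.R167.HG.PSL m F) := Quotient.finite _
    exact Nat.card_pos
  exact Real.log_le_log (by exact_mod_cast h3) (by exact_mod_cast h2)

theorem result :
    (∀ (F : Type) [Field F] [Finite F] (r : ℕ), ∃ C : ℕ, ∀ (m : ℕ), 1 ≤ m →
      (∀ (S : Set (G m F)) (x : G m F) (c : F), Subgroup.closure S = ⊤ → x ∈ S →
        x.1 ≠ c • (1 : Matrix (Fin (m + 1)) (Fin (m + 1)) F) →
        (x.1 - c • (1 : Matrix (Fin (m + 1)) (Fin (m + 1)) F)).rank ≤ r →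
        ∀ g : G m F, IsWord S ((m + 1) ^ C) g) ∧
      (2 ≤ m ∨ 4 ≤ Nat.card F → ((m : ℝ) + 1) ^ C ≤ (Real.log (Nat.card (G m F))) ^ C)) ∧
    (∀ (p a : ℕ) (F : Type) [Field F] [Finite F] [CharP F p] (m : ℕ) (e φ : Fin (m + 1) → F)
      (S : Set (G m F)), p.Prime → Nat.card F = p ^ a → e ≠ 0 → φ ≠ 0 → φ ⬝ᵥ e = 0 →
      Subgroup.closure S = ⊤ →
      AddSubgroup.closure {c : F | ∀ t : G m F, t.1 = 1 + vecMulVec (c • e) φ → t ∈ S} = ⊤ →
      (∀ g : G m F, IsWord S
        (12 * (m + 1) ^ 3 * (12 * (a * (p / 2)) + 4 * (m + 1) ^ 3 + 8 * (m + 1) ^ 2 + 2)) g) ∧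
      (p ≤ 3 → 2 ≤ m ∨ (1 ≤ m ∧ 4 ≤ Nat.card F) →
        ((12 * (m + 1) ^ 3 * (12 * (a * (p / 2)) + 4 * (m + 1) ^ 3 + 8 * (m + 1) ^ 2 + 2) : ℕ) : ℝ)
          ≤ (Real.log (Nat.card (G m F))) ^ 11)) ∧
    (∀ (F : Type) [Field F] [Finite F] (m : ℕ) (e φ : Fin (m + 1) → F) (S : Set (G m F)),
      2 ≤ m ∨ (1 ≤ m ∧ 4 ≤ Nat.card F) → e ≠ 0 → φ ≠ 0 → φ ⬝ᵥ e = 0 → Subgroup.closure S = ⊤ →
      (∀ (c : F) (t : G m F), t.1 = 1 + vecMulVec (c • e) φ → ∀ s ∈ S, t * s * t⁻¹ ∈ S) →
      (∀ g : G m F, IsWord S (585 * (m + 1) ^ 6) g) ∧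
        585 * ((m : ℝ) + 1) ^ 6 ≤ (Real.log (Nat.card (G m F))) ^ 11) := by
  have hT : ∀ (F : Type) [Field F] (m : ℕ) (e φ : Fin (m + 1) → F), φ ⬝ᵥ e = 0 → ∀ c : F,
      (Run7.h806.TV.T (c • e) φ).1 = 1 + vecMulVec (c • e) φ := fun F _ m e φ h c =>
    Run7.h806.TV.T_val (by rw [dotProduct_smul, h, smul_zero])
  have hpos : ∀ (m : ℕ) (F : Type) [Field F] [Finite F],
      0 ≤ Real.log (Nat.card (Pool.Agent.R167.HG.PSL m F)) := fun m F _ _ =>
    Real.log_natCast_nonneg _
  refine ⟨?_, ?_, ?_⟩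
  · intro F _ _ r
    obtain ⟨C, hC⟩ := Run7.h806.TV.bounded_support F r
    refine ⟨C, fun m hm => ⟨fun S x c hS hx hc hr g =>
      hC m (G m F) (MonoidHom.id _) S x c hm Function.surjective_id hS hx hc hr g, fun h => ?_⟩⟩
    exact pow_le_pow_left₀ (by positivity)
      ((Run7.h806.TV.le_log F m (by omega)).trans (log_le m F)) C
  · intro p a F _ _ _ m e φ S hp ha he hφ h hS hA
    haveI : Fact p.Prime := ⟨hp⟩
    refine ⟨fun g => ?_, fun hp3 hm => ?_⟩
    · have hR := Run7.h806.TV.R_of_gen ha (S := S) h (by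
        rw [eq_top_iff, ← hA]
        exact AddSubgroup.closure_mono fun c hc => hc _ (hT F m e φ h c))
      exact Run7.h806.TV.short hS he hφ h hR g
    · exact (Run7.h806.TV.log_short F m p a hp.two_le hp3 ha hm).trans
        (pow_le_pow_left₀ (hpos m F) (log_le m F) 11)
  · intro F _ _ m e φ S hm he hφ h hS hinv
    refine ⟨fun g => ?_, (Run7.h806.TV.log_inv F m hm).trans
      (pow_le_pow_left₀ (hpos m F) (log_le m F) 11)⟩
    have hm' : 2 ≤ m ∨ ∃ s : Finset F, s.card = 4 := by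
      rcases hm with hm | ⟨-, hm⟩
      · exact Or.inl hm
      · right
        classical
        cases nonempty_fintype F
        rw [Nat.card_eq_fintype_card] at hm
        obtain ⟨s, -, hs⟩ := Finset.exists_subset_card_eq (s := (Finset.univ : Finset F)) (n := 4)
          (by simpa using hm)
        exact ⟨s, hs⟩
    exact Run7.h806.TV.inv_main hm' he hφ h ⟨hS, fun c => hinv c _ (hT F m e φ h c)⟩ g

end Pool.Agent.Results.MP_bed792_al.SpecialLinear
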